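import Pool.Agent.H96.PP.Par

/-!
# The exponents are coprime for the 38 integers of the problem
-/

namespace Pool.Agent.H96.PP

open scoped NumberTheorySymbols

/-- The 38 integers of the problem file. -/
def S : Finset ℕ :=
  {6, 14, 34, 42, 50, 58, 62, 66, 70, 78, 82, 86, 90, 102, 110, 114, 130, 134, 158, 178,
   182, 202, 206, 210, 226, 230, 238, 246, 254, 258, 266, 274, 278, 302, 306, 310, 314, 322}

theorem S_mod : ∀ k ∈ S, k % 4 = 2 ∧ k ≤ 322 := by decide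

theorem S_check : ∀ d ∈ Finset.Icc 3 9, ∀ M ∈ Finset.range 18, ∀ N ∈ Finset.range M, 1 ≤ N →
    M ^ d - N ^ d ∉ S := by decide +kernel

theorem coprime_exponents {k m n p q : ℕ} (hk : k ∈ S) (hn : 1 ≤ n) (hp : 2 ≤ p) (hq : 2 ≤ q)
    (h : m ^ p = n ^ q + k) : Nat.gcd p q = 1 := by
  obtain ⟨hk4, hk322⟩ := S_mod k hk
  by_contra hd
  have hd0 : 0 < Nat.gcd p q := Nat.gcd_pos_of_pos_left _ (by omega)
  obtain ⟨d, hdd⟩ : ∃ d, d = Nat.gcd p q := ⟨_, rfl⟩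
  rw [← hdd] at hd hd0
  have hd2 : 2 ≤ d := by omega
  obtain ⟨p', hp'⟩ : d ∣ p := hdd ▸ Nat.gcd_dvd_left p q
  obtain ⟨q', hq'⟩ : d ∣ q := hdd ▸ Nat.gcd_dvd_right p q
  by_cases h2 : d = 2
  · have hpe : p % 2 = 0 := by rw [hp', h2]; omega
    have hqe : q % 2 = 0 := by rw [hq', h2]; omega
    have := not_both_even hk4 hp hq h hpe
    omega
  have hd3 : 3 ≤ d := by omega
  rw [hp', hq', mul_comm d p', mul_comm d q', pow_mul, pow_mul] at h
  obtain ⟨M, hM⟩ : ∃ M, M = m ^ p' := ⟨_, rfl⟩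
  obtain ⟨N, hN⟩ : ∃ N, N = n ^ q' := ⟨_, rfl⟩
  rw [← hM, ← hN] at h
  have hN1 : 1 ≤ N := hN ▸ Nat.one_le_pow _ _ hn
  have hlt : N < M := by
    by_contra hc
    have := Nat.pow_le_pow_left (Nat.le_of_not_lt hc) d
    omega
  obtain ⟨e, rfl⟩ : ∃ e, d = e + 1 := ⟨d - 1, by omega⟩
  have hbound : M ^ e ≤ k := by
    obtain ⟨L, rfl⟩ : ∃ L, M = L + 1 := ⟨M - 1, by omega⟩
    have h1 : N ^ (e + 1) ≤ L ^ (e + 1) := Nat.pow_le_pow_left (by omega) _
    have h2 : L ^ (e + 1) ≤ L * (L + 1) ^ e := by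
      rw [pow_succ, mul_comm]
      exact Nat.mul_le_mul_left _ (Nat.pow_le_pow_left (by omega) _)
    have h3 : (L + 1) ^ (e + 1) = L * (L + 1) ^ e + (L + 1) ^ e := by ring
    omega
  have he : e ≤ 8 := by
    by_contra hc
    have h1 : 2 ^ 9 ≤ 2 ^ e := Nat.pow_le_pow_right (by norm_num) (by omega)
    have h2 : 2 ^ e ≤ M ^ e := Nat.pow_le_pow_left (by omega) _
    omega
  have hM17 : M < 18 := by
    by_contra hc
    have h1 : M ^ 2 ≤ M ^ e := Nat.pow_le_pow_right (by omega) (by omega)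
    have h2 : 18 ^ 2 ≤ M ^ 2 := Nat.pow_le_pow_left (by omega) _
    omega
  have := S_check (e + 1) (Finset.mem_Icc.2 ⟨by omega, by omega⟩) M (Finset.mem_range.2 hM17) N
    (Finset.mem_range.2 hlt) hN1
  apply this
  rw [h, Nat.add_sub_cancel_left]
  exact hk

end Pool.Agent.H96.PP
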