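import Mathlib

/-!
# Differences of perfect powers congruent to 2 modulo 4: conditions uniform in the exponents
-/

namespace Pool.Agent.H96.PP

open Nat

open scoped NumberTheorySymbols

theorem pow_mod_eight {n q : ℕ} (hn : n % 2 = 1) (hq : q % 2 = 1) : n ^ q % 8 = n % 8 := by
  obtain ⟨t, rfl⟩ : ∃ t, q = 2 * t + 1 := ⟨q / 2, by omega⟩
  have h2 : n ^ 2 % 8 = 1 := by
    have : n % 8 = 1 ∨ n % 8 = 3 ∨ n % 8 = 5 ∨ n % 8 = 7 := by omega
    rcases this with h | h | h | h <;> simp [Nat.pow_mod, h]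
  rw [pow_succ, pow_mul, Nat.mul_mod, Nat.pow_mod, h2, one_pow]
  simp

theorem sq_mod_eight {n q : ℕ} (hn : n % 2 = 1) (hq : q % 2 = 0) : n ^ q % 8 = 1 := by
  obtain ⟨t, rfl⟩ : ∃ t, q = 2 * t := ⟨q / 2, by omega⟩
  have h2 : n ^ 2 % 8 = 1 := by
    have : n % 8 = 1 ∨ n % 8 = 3 ∨ n % 8 = 5 ∨ n % 8 = 7 := by omega
    rcases this with h | h | h | h <;> simp [Nat.pow_mod, h]
  rw [pow_mul, Nat.pow_mod, h2, one_pow]; rfl

theorem even_pow_mod_four {n q : ℕ} (hn : n % 2 = 0) (hq : 2 ≤ q) : n ^ q % 4 = 0 := by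
  obtain ⟨t, rfl⟩ : ∃ t, q = 2 + t := ⟨q - 2, by omega⟩
  obtain ⟨a, rfl⟩ : ∃ a, n = 2 * a := ⟨n / 2, by omega⟩
  rw [pow_add, mul_pow]
  have : 2 ^ 2 * a ^ 2 * (2 * a) ^ t = 4 * (a ^ 2 * (2 * a) ^ t) := by ring
  rw [this]; omega

theorem odd_both {k m n p q : ℕ} (hk : k % 4 = 2) (hp : 2 ≤ p) (hq : 2 ≤ q)
    (h : m ^ p = n ^ q + k) : m % 2 = 1 ∧ n % 2 = 1 := by
  have hm : m % 2 = 0 ∨ m % 2 = 1 := by omega
  have hn : n % 2 = 0 ∨ n % 2 = 1 := by omega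
  have pm : m % 2 = 1 → m ^ p % 2 = 1 := fun h => by simp [Nat.pow_mod, h]
  have pn : n % 2 = 1 → n ^ q % 2 = 1 := fun h => by simp [Nat.pow_mod, h]
  rcases hm with hm | hm <;> rcases hn with hn | hn
  · have := even_pow_mod_four hm hp; have := even_pow_mod_four hn hq; omega
  · have := even_pow_mod_four hm hp; have := pn hn; omega
  · have := pm hm; have := even_pow_mod_four hn hq; omega
  · exact ⟨hm, hn⟩

/-- a square residue has no Jacobi symbol `-1` -/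
theorem ne_of_sq {a x : ℤ} {u : ℕ} (h : (u : ℤ) ∣ x ^ 2 - a) : J(a | u) ≠ -1 := by
  intro hJ
  apply ZMod.nonsquare_of_jacobiSym_eq_neg_one hJ
  refine ⟨(x : ZMod u), ?_⟩
  have := (ZMod.intCast_zmod_eq_zero_iff_dvd (x ^ 2 - a) u).2 h
  push_cast at this
  rw [← sub_eq_zero]
  linear_combination -this

theorem pow_even_eq {m p : ℕ} (hp : p % 2 = 0) : m ^ p = (m ^ (p / 2)) ^ 2 := by
  rw [← pow_mul]; congr 1; omega

theorem two_one {b : ℕ} (h : b % 8 = 1 ∨ b % 8 = 7) : J(2 | b) = 1 := by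
  rw [jacobiSym.at_two (Nat.odd_iff.2 (by omega)), ZMod.χ₈_nat_eq_if_mod_eight]
  rw [if_neg (by omega), if_pos h]

theorem two_neg {b : ℕ} (h : b % 8 = 3 ∨ b % 8 = 5) : J(2 | b) = -1 := by
  rw [jacobiSym.at_two (Nat.odd_iff.2 (by omega)), ZMod.χ₈_nat_eq_if_mod_eight]
  rw [if_neg (by omega), if_neg (by omega)]

theorem two_pow_mul {b j : ℕ} (u : ℤ) (h : b % 8 = 1 ∨ b % 8 = 7) :
    J(2 ^ j * u | b) = J(u | b) := by
  rw [jacobiSym.mul_left, jacobiSym.pow_left, two_one h, one_pow, one_mul]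

theorem four_mul' {b : ℕ} (u : ℤ) (h : b % 2 = 1) : J(4 * u | b) = J(u | b) := by
  have h4 : (4 : ℤ) = 2 ^ 2 := by norm_num
  rw [jacobiSym.mul_left, h4, jacobiSym.pow_left]
  have : J(2 | b) = 1 ∨ J(2 | b) = -1 := by
    have : b % 8 = 1 ∨ b % 8 = 7 ∨ b % 8 = 3 ∨ b % 8 = 5 := by omega
    rcases this with h | h | h | h
    · exact Or.inl (two_one (Or.inl h))
    · exact Or.inl (two_one (Or.inr h))
    · exact Or.inr (two_neg (Or.inl h))
    · exact Or.inr (two_neg (Or.inr h))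
  rcases this with h | h <;> rw [h] <;> norm_num

/-- reciprocity for a second entry `1` modulo `4` -/
theorem recip_one {a u : ℕ} (ha : a % 4 = 1) (hu : u % 2 = 1) : J((a : ℤ) | u) = J((u : ℤ) | a) :=
  jacobiSym.quadratic_reciprocity_one_mod_four ha (Nat.odd_iff.2 hu)

/-- `(-a / u) = (u / a)` for `a = 3` modulo `4` and odd `u` -/
theorem recip_three {a u : ℕ} (ha : a % 4 = 3) (hu : u % 2 = 1) :
    J(-(a : ℤ) | u) = J((u : ℤ) | a) := by
  have h1 : J(-(a : ℤ) | u) = J(-1 | u) * J((a : ℤ) | u) := by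
    rw [← jacobiSym.mul_left]; congr 1; ring
  rw [h1, jacobiSym.at_neg_one (Nat.odd_iff.2 hu)]
  have : u % 4 = 1 ∨ u % 4 = 3 := by omega
  rcases this with h | h
  · rw [ZMod.χ₄_nat_one_mod_four h, one_mul]
    exact jacobiSym.quadratic_reciprocity_one_mod_four' (Nat.odd_iff.2 (by omega)) h
  · rw [ZMod.χ₄_nat_three_mod_four h, jacobiSym.quadratic_reciprocity_three_mod_four ha h]
    ring

theorem odd_part (N : ℕ) (hN : N ≠ 0) : ∃ j u, N = 2 ^ j * u ∧ u % 2 = 1 := by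
  obtain ⟨j, u, hu, h⟩ := Nat.exists_eq_two_pow_mul_odd hN
  exact ⟨j, u, h, Nat.odd_iff.1 hu⟩

end Pool.Agent.H96.PP
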