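import Pool.Agent.H96.PP.Gcd

/-!
# Both exponents odd; the prime 3
-/

namespace Pool.Agent.H96.PP

open scoped NumberTheorySymbols

variable {k m n p q : ℕ}

/-- odd powers keep the Jacobi symbol -/
theorem jac_pow (a : ℤ) (u : ℕ) {p : ℕ} (hp : p % 2 = 1) : J(a ^ p | u) = J(a | u) := by
  rw [jacobiSym.pow_left]
  rcases jacobiSym.trichotomy a u with h | h | h <;> rw [h]
  · exact zero_pow (by omega)
  · exact one_pow _
  · exact Odd.neg_one_pow (Nat.odd_iff.2 hp)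

theorem jac_congr {a b : ℤ} {u : ℕ} (h : (u : ℤ) ∣ a - b) : J(a | u) = J(b | u) :=
  jacobiSym.mod_left' (Int.modEq_iff_dvd.2 h : b ≡ a [ZMOD u]).symm

theorem pow_mod_24 {n q : ℕ} (hn : n % 2 = 1) (hq : q % 2 = 1) : n ^ q % 24 = n % 24 := by
  obtain ⟨t, rfl⟩ : ∃ t, q = 2 * t + 1 := ⟨q / 2, by omega⟩
  induction t with
  | zero => simp
  | succ t ih =>
    have h3 : n ^ 3 % 24 = n % 24 := by
      have : n % 24 < 24 := Nat.mod_lt _ (by norm_num)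
      rw [Nat.pow_mod]
      have h2 : n % 24 % 2 = 1 := by omega
      generalize n % 24 = r at *
      interval_cases r <;> simp_all
    have e : n ^ (2 * (t + 1) + 1) = n ^ (2 * t + 1) * n ^ 2 := by rw [← pow_add]; congr 1
    rw [e, Nat.mul_mod, ih (by omega), ← Nat.mul_mod]
    have e2 : n * n ^ 2 = n ^ 3 := by ring
    rw [e2, h3]

theorem odd_mod (hk : k % 4 = 2) (hp : 2 ≤ p) (hq : 2 ≤ q) (h : m ^ p = n ^ q + k)
    (hpo : p % 2 = 1) (hqo : q % 2 = 1) : m % 24 = (n + k) % 24 := by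
  obtain ⟨hm, hn⟩ := odd_both hk hp hq h
  have h1 := pow_mod_24 hm hpo
  have h2 := pow_mod_24 hn hqo
  omega

theorem odd_sub_n (h : m ^ p = n ^ q + k) (hpo : p % 2 = 1) {u : ℕ}
    (hu : (u : ℤ) ∣ (n : ℤ) - 1) : J((m : ℤ) | u) = J((k : ℤ) + 1 | u) := by
  rw [← jac_pow (m : ℤ) u hpo]
  apply jac_congr
  have t : (m : ℤ) ^ p = (n : ℤ) ^ q + k := by exact_mod_cast h
  have e : (m : ℤ) ^ p - ((k : ℤ) + 1) = (n : ℤ) ^ q - 1 ^ q := by rw [t]; ring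
  rw [e]
  exact dvd_trans hu (sub_dvd_pow_sub_pow (n : ℤ) 1 q)

theorem odd_add_n (h : m ^ p = n ^ q + k) (hpo : p % 2 = 1) (hqo : q % 2 = 1) {u : ℕ}
    (hu : (u : ℤ) ∣ (n : ℤ) + 1) : J((m : ℤ) | u) = J((k : ℤ) - 1 | u) := by
  rw [← jac_pow (m : ℤ) u hpo]
  apply jac_congr
  have t : (m : ℤ) ^ p = (n : ℤ) ^ q + k := by exact_mod_cast h
  have e : (m : ℤ) ^ p - ((k : ℤ) - 1) = (n : ℤ) ^ q + 1 ^ q := by rw [t]; ring
  rw [e]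
  exact dvd_trans hu (Odd.add_dvd_pow_add_pow (n : ℤ) 1 (Nat.odd_iff.2 hqo))

theorem odd_sub_m (h : m ^ p = n ^ q + k) (hqo : q % 2 = 1) {u : ℕ}
    (hu : (u : ℤ) ∣ (m : ℤ) - 1) : J((n : ℤ) | u) = J(1 - (k : ℤ) | u) := by
  rw [← jac_pow (n : ℤ) u hqo]
  apply jac_congr
  have t : (m : ℤ) ^ p = (n : ℤ) ^ q + k := by exact_mod_cast h
  have e : (n : ℤ) ^ q - (1 - (k : ℤ)) = (m : ℤ) ^ p - 1 ^ p := by rw [t]; ring
  rw [e]
  exact dvd_trans hu (sub_dvd_pow_sub_pow (m : ℤ) 1 p)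

theorem odd_add_m (h : m ^ p = n ^ q + k) (hpo : p % 2 = 1) (hqo : q % 2 = 1) {u : ℕ}
    (hu : (u : ℤ) ∣ (m : ℤ) + 1) : J((n : ℤ) | u) = J(-1 - (k : ℤ) | u) := by
  rw [← jac_pow (n : ℤ) u hqo]
  apply jac_congr
  have t : (m : ℤ) ^ p = (n : ℤ) ^ q + k := by exact_mod_cast h
  have e : (n : ℤ) ^ q - (-1 - (k : ℤ)) = (m : ℤ) ^ p + 1 ^ p := by rw [t]; ring
  rw [e]
  exact dvd_trans hu (Odd.add_dvd_pow_add_pow (m : ℤ) 1 (Nat.odd_iff.2 hpo))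

theorem odd_recip (hk : k % 4 = 2) (hp : 2 ≤ p) (hq : 2 ≤ q) (h : m ^ p = n ^ q + k)
    (hpo : p % 2 = 1) (hqo : q % 2 = 1) : J((k : ℤ) | n) = J(-(k : ℤ) | m) := by
  obtain ⟨hm, hn⟩ := odd_both hk hp hq h
  have h24 := odd_mod hk hp hq h hpo hqo
  have t : (m : ℤ) ^ p = (n : ℤ) ^ q + k := by exact_mod_cast h
  have h1 : J((m : ℤ) | n) = J((k : ℤ) | n) := by
    rw [← jac_pow (m : ℤ) n hpo]
    apply jac_congr
    rw [t]
    have e : (n : ℤ) ^ q + k - k = (n : ℤ) ^ q := by ring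
    rw [e]; exact dvd_pow_self _ (by omega)
  have h2 : J((n : ℤ) | m) = J(-(k : ℤ) | m) := by
    rw [← jac_pow (n : ℤ) m hqo]
    apply jac_congr
    have e : (n : ℤ) ^ q - -(k : ℤ) = (m : ℤ) ^ p := by rw [t]; ring
    rw [e]; exact dvd_pow_self _ (by omega)
  rw [← h1, ← h2]
  have h4 : m % 4 = 1 ∨ n % 4 = 1 := by omega
  rcases h4 with h4 | h4
  · exact jacobiSym.quadratic_reciprocity_one_mod_four h4 (Nat.odd_iff.2 hn)
  · exact jacobiSym.quadratic_reciprocity_one_mod_four' (Nat.odd_iff.2 hm) h4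

theorem pow_mod_three (n : ℕ) {q : ℕ} (hq : q % 2 = 1) : (3 : ℤ) ∣ (n : ℤ) ^ q - n := by
  obtain ⟨t, rfl⟩ : ∃ t, q = 2 * t + 1 := ⟨q / 2, by omega⟩
  induction t with
  | zero => simp
  | succ t ih =>
    have h3 : (3 : ℤ) ∣ (n : ℤ) ^ 3 - n := by
      have : (n : ℤ) % 3 = 0 ∨ (n : ℤ) % 3 = 1 ∨ (n : ℤ) % 3 = 2 := by omega
      rcases this with h | h | h
      · obtain ⟨c, hc⟩ : ∃ c, (n : ℤ) = 3 * c := ⟨n / 3, by omega⟩
        rw [hc]; exact ⟨9 * c ^ 3 - c, by ring⟩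
      · obtain ⟨c, hc⟩ : ∃ c, (n : ℤ) = 3 * c + 1 := ⟨n / 3, by omega⟩
        rw [hc]; exact ⟨9 * c ^ 3 + 9 * c ^ 2 + 2 * c, by ring⟩
      · obtain ⟨c, hc⟩ : ∃ c, (n : ℤ) = 3 * c + 2 := ⟨n / 3, by omega⟩
        rw [hc]; exact ⟨9 * c ^ 3 + 18 * c ^ 2 + 11 * c + 2, by ring⟩
    have e : (n : ℤ) ^ (2 * (t + 1) + 1) - n =
        (n : ℤ) ^ 2 * ((n : ℤ) ^ (2 * t + 1) - n) + ((n : ℤ) ^ 3 - n) := by ring
    rw [e]
    exact dvd_add (Dvd.dvd.mul_left (ih (by omega)) _) h3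

theorem first_three (hk : k % 4 = 2) (hp : 2 ≤ p) (hq : 2 ≤ q) (h : m ^ p = n ^ q + k)
    (hpe : p % 2 = 0) : J((n : ℤ) + k | 3) ≠ -1 := by
  have hqo := not_both_even hk hp hq h hpe
  apply ne_of_sq (x := ((m ^ (p / 2) : ℕ) : ℤ))
  have := pow_even_eq (m := m) hpe
  rw [h] at this
  have t : ((m ^ (p / 2) : ℕ) : ℤ) ^ 2 = (n : ℤ) ^ q + k := by exact_mod_cast this.symm
  have e : ((m ^ (p / 2) : ℕ) : ℤ) ^ 2 - ((n : ℤ) + k) = (n : ℤ) ^ q - n := by rw [t]; ring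
  rw [e]
  exact_mod_cast pow_mod_three n hqo

theorem second_three (hk : k % 4 = 2) (hp : 2 ≤ p) (hq : 2 ≤ q) (h : m ^ p = n ^ q + k)
    (hqe : q % 2 = 0) : J((m : ℤ) - k | 3) ≠ -1 := by
  obtain ⟨hpo, -⟩ := second_mod hk hp hq h hqe
  apply ne_of_sq (x := ((n ^ (q / 2) : ℕ) : ℤ))
  have t1 := pow_even_eq (m := n) hqe
  rw [t1] at h
  have t : (m : ℤ) ^ p = ((n ^ (q / 2) : ℕ) : ℤ) ^ 2 + k := by exact_mod_cast h
  have e : ((n ^ (q / 2) : ℕ) : ℤ) ^ 2 - ((m : ℤ) - k) = (m : ℤ) ^ p - m := by rw [t]; ring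
  rw [e]
  exact_mod_cast pow_mod_three m hpo

theorem second_div (hk : k % 4 = 2) (hp : 2 ≤ p) (hq : 2 ≤ q) (h : m ^ p = n ^ q + k)
    (hqe : q % 2 = 0) {r : ℕ} (hr : r ∣ k) : J((m : ℤ) | r) ≠ -1 := by
  obtain ⟨hpo, -⟩ := second_mod hk hp hq h hqe
  rw [← jac_pow (m : ℤ) r hpo]
  apply ne_of_sq (x := ((n ^ (q / 2) : ℕ) : ℤ))
  have t1 := pow_even_eq (m := n) hqe
  rw [t1] at h
  have t : (m : ℤ) ^ p = ((n ^ (q / 2) : ℕ) : ℤ) ^ 2 + k := by exact_mod_cast h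
  rw [t]
  obtain ⟨c, hc⟩ := hr
  refine ⟨-(c : ℤ), ?_⟩
  rw [hc]; push_cast; ring

theorem odd_div (h : m ^ p = n ^ q + k) (hpo : p % 2 = 1) (hqo : q % 2 = 1) {r : ℕ}
    (hr : r ∣ k) : J((m : ℤ) | r) = J((n : ℤ) | r) := by
  rw [← jac_pow (m : ℤ) r hpo, ← jac_pow (n : ℤ) r hqo]
  apply jac_congr
  have t : (m : ℤ) ^ p = (n : ℤ) ^ q + k := by exact_mod_cast h
  have e : (m : ℤ) ^ p - (n : ℤ) ^ q = k := by rw [t]; ring
  rw [e]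
  exact_mod_cast hr

/-- a prime that divides `k` exactly once divides neither base -/
theorem exact_div (hp : 2 ≤ p) (hq : 2 ≤ q) (h : m ^ p = n ^ q + k) {r : ℕ} (hr : r.Prime)
    (h1 : r ∣ k) (h2 : ¬ r ^ 2 ∣ k) : ¬ r ∣ m ∧ ¬ r ∣ n := by
  have key : r ∣ m ↔ r ∣ n := by
    constructor
    · intro hm
      have : r ∣ n ^ q + k := h ▸ dvd_pow hm (by omega)
      exact hr.dvd_of_dvd_pow ((Nat.dvd_add_left h1).1 this)
    · intro hn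
      have : r ∣ m ^ p := h ▸ dvd_add (dvd_pow hn (by omega)) h1
      exact hr.dvd_of_dvd_pow this
  have no : ¬ r ∣ n := by
    intro hn
    apply h2
    have a : r ^ 2 ∣ m ^ p := (pow_dvd_pow_of_dvd (key.2 hn) 2).trans (pow_dvd_pow m hp)
    have b : r ^ 2 ∣ n ^ q := (pow_dvd_pow_of_dvd hn 2).trans (pow_dvd_pow n hq)
    rw [h] at a
    exact (Nat.dvd_add_right b).1 a
  exact ⟨fun hm => no (key.1 hm), no⟩

end Pool.Agent.H96.PP
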