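import Pool.Agent.H96.PP.Main

/-!
# Even exponents: congruence conditions on the other base, for all exponents at once
-/

namespace Pool.Agent.H96.PP

open scoped NumberTheorySymbols

variable {k m n p q : ℕ}

theorem not_both_even (hk : k % 4 = 2) (hp : 2 ≤ p) (hq : 2 ≤ q) (h : m ^ p = n ^ q + k)
    (hpe : p % 2 = 0) : q % 2 = 1 := by
  obtain ⟨hm, hn⟩ := odd_both hk hp hq h
  by_contra hqe
  have h1 := sq_mod_eight hm hpe
  have h2 := sq_mod_eight (q := q) hn (by omega)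
  omega

theorem first_mod (hk : k % 4 = 2) (hp : 2 ≤ p) (hq : 2 ≤ q) (h : m ^ p = n ^ q + k)
    (hpe : p % 2 = 0) : n % 8 = (k + 5) % 8 := by
  obtain ⟨hm, hn⟩ := odd_both hk hp hq h
  have h1 := sq_mod_eight hm hpe
  have h2 := pow_mod_eight hn (not_both_even hk hp hq h hpe)
  omega

theorem second_mod (hk : k % 4 = 2) (hp : 2 ≤ p) (hq : 2 ≤ q) (h : m ^ p = n ^ q + k)
    (hqe : q % 2 = 0) : p % 2 = 1 ∧ m % 8 = (k + 1) % 8 := by
  obtain ⟨hm, hn⟩ := odd_both hk hp hq h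
  have hpo : p % 2 = 1 := by
    by_contra hc
    have := not_both_even hk hp hq h (by omega)
    omega
  have h1 := sq_mod_eight hn hqe
  have h2 := pow_mod_eight hm hpo
  exact ⟨hpo, by omega⟩

theorem first_sub (hk : k % 4 = 2) (hp : 2 ≤ p) (hq : 2 ≤ q) (h : m ^ p = n ^ q + k)
    (hpe : p % 2 = 0) : J((n : ℤ) - 1 | (k + 1)) ≠ -1 := by
  have hn8 := first_mod hk hp hq h hpe
  obtain ⟨u, hu⟩ : ∃ u, n = 2 * u + 1 := ⟨n / 2, by omega⟩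
  have hdvd : (u : ℤ) ∣ ((m ^ (p / 2) : ℕ) : ℤ) ^ 2 - ((k + 1 : ℕ) : ℤ) := by
    have e : ((m ^ (p / 2) : ℕ) : ℤ) ^ 2 - ((k + 1 : ℕ) : ℤ) = (n : ℤ) ^ q - 1 ^ q := by
      have := pow_even_eq (m := m) hpe
      rw [h] at this
      have t : ((m ^ (p / 2) : ℕ) : ℤ) ^ 2 = (n : ℤ) ^ q + k := by exact_mod_cast this.symm
      rw [t]; push_cast; ring
    rw [e]
    refine dvd_trans ?_ (sub_dvd_pow_sub_pow (n : ℤ) 1 q)
    exact ⟨2, by rw [hu]; push_cast; ring⟩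
  have hne := ne_of_sq hdvd
  have e1 : (n : ℤ) - 1 = 2 * (u : ℤ) := by rw [hu]; push_cast; ring
  rw [e1, jacobiSym.mul_left]
  have hk8 : k % 8 = 2 ∨ k % 8 = 6 := by omega
  rcases hk8 with hk8 | hk8
  · rw [two_neg (by omega)]
    rw [jacobiSym.quadratic_reciprocity_three_mod_four (by omega) (by omega)] at hne
    intro hc; apply hne; linarith
  · rw [two_one (by omega), one_mul]
    rwa [jacobiSym.quadratic_reciprocity_one_mod_four' (Nat.odd_iff.2 (by omega)) (by omega)]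
      at hne

theorem first_add (hk : k % 4 = 2) (hp : 2 ≤ p) (hq : 2 ≤ q) (h : m ^ p = n ^ q + k)
    (hpe : p % 2 = 0) : J((n : ℤ) + 1 | (k - 1)) ≠ -1 := by
  have hn8 := first_mod hk hp hq h hpe
  have hqo := not_both_even hk hp hq h hpe
  have key : ∀ u : ℕ, u % 2 = 1 → (u : ℤ) ∣ (n : ℤ) + 1 → J((u : ℤ) | (k - 1)) ≠ -1 := by
    intro u hu hd
    have hdvd : (u : ℤ) ∣ ((m ^ (p / 2) : ℕ) : ℤ) ^ 2 - ((k - 1 : ℕ) : ℤ) := by
      have e : ((m ^ (p / 2) : ℕ) : ℤ) ^ 2 - ((k - 1 : ℕ) : ℤ) = (n : ℤ) ^ q + 1 ^ q := by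
        have := pow_even_eq (m := m) hpe
        rw [h] at this
        have t : ((m ^ (p / 2) : ℕ) : ℤ) ^ 2 = (n : ℤ) ^ q + k := by exact_mod_cast this.symm
        rw [t, Nat.cast_sub (by omega)]; push_cast; ring
      rw [e]
      exact dvd_trans hd (Odd.add_dvd_pow_add_pow (n : ℤ) 1 (Nat.odd_iff.2 hqo))
    have hne := ne_of_sq hdvd
    rwa [recip_one (by omega) hu] at hne
  have hk8 : k % 8 = 2 ∨ k % 8 = 6 := by omega
  rcases hk8 with hk8 | hk8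
  · obtain ⟨j, u, e, hu⟩ := odd_part (n + 1) (by omega)
    have e' : (n : ℤ) + 1 = 2 ^ j * (u : ℤ) := by exact_mod_cast e
    rw [e', two_pow_mul _ (by omega)]
    exact key u hu ⟨2 ^ j, by rw [e']; ring⟩
  · obtain ⟨u, hu⟩ : ∃ u, n + 1 = 4 * u := ⟨(n + 1) / 4, by omega⟩
    have e' : (n : ℤ) + 1 = 4 * (u : ℤ) := by exact_mod_cast hu
    rw [e', four_mul' _ (by omega)]
    exact key u (by omega) ⟨4, by rw [e']; ring⟩

theorem first_dvd (hk : k % 4 = 2) (hp : 2 ≤ p) (hq : 2 ≤ q) (h : m ^ p = n ^ q + k)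
    (hpe : p % 2 = 0) {r : ℕ} (hr : r ∣ k) : J((n : ℤ) | r) ≠ -1 := by
  have hqo := not_both_even hk hp hq h hpe
  have hdvd : (r : ℤ) ∣ ((m ^ (p / 2) : ℕ) : ℤ) ^ 2 - (n : ℤ) ^ q := by
    have := pow_even_eq (m := m) hpe
    rw [h] at this
    have t : ((m ^ (p / 2) : ℕ) : ℤ) ^ 2 = (n : ℤ) ^ q + k := by exact_mod_cast this.symm
    rw [t]
    have : (n : ℤ) ^ q + k - (n : ℤ) ^ q = k := by ring
    rw [this]
    exact_mod_cast hr
  have hne := ne_of_sq hdvd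
  intro hc
  rw [jacobiSym.pow_left, hc] at hne
  exact hne (Odd.neg_one_pow (Nat.odd_iff.2 hqo))

theorem second_sub (hk : k % 4 = 2) (hp : 2 ≤ p) (hq : 2 ≤ q) (h : m ^ p = n ^ q + k)
    (hqe : q % 2 = 0) : J((m : ℤ) - 1 | (k - 1)) ≠ -1 := by
  obtain ⟨hpo, hm8⟩ := second_mod hk hp hq h hqe
  obtain ⟨u, hu⟩ : ∃ u, m = 2 * u + 1 := ⟨m / 2, by omega⟩
  have hdvd : (u : ℤ) ∣ ((n ^ (q / 2) : ℕ) : ℤ) ^ 2 - (-((k - 1 : ℕ) : ℤ)) := by
    have e : ((n ^ (q / 2) : ℕ) : ℤ) ^ 2 - (-((k - 1 : ℕ) : ℤ)) = (m : ℤ) ^ p - 1 ^ p := by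
      have t1 := pow_even_eq (m := n) hqe
      rw [t1] at h
      have t : (m : ℤ) ^ p = ((n ^ (q / 2) : ℕ) : ℤ) ^ 2 + k := by exact_mod_cast h
      rw [t, Nat.cast_sub (by omega)]; push_cast; ring
    rw [e]
    refine dvd_trans ?_ (sub_dvd_pow_sub_pow (m : ℤ) 1 p)
    exact ⟨2, by rw [hu]; push_cast; ring⟩
  have hne := ne_of_sq hdvd
  have e1 : (m : ℤ) - 1 = 2 * (u : ℤ) := by rw [hu]; push_cast; ring
  rw [e1, jacobiSym.mul_left]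
  have hsp : J(-((k - 1 : ℕ) : ℤ) | u) = J(-1 | u) * J(((k - 1 : ℕ) : ℤ) | u) := by
    rw [← jacobiSym.mul_left]; congr 1; ring
  rw [hsp, jacobiSym.at_neg_one (Nat.odd_iff.2 (by omega)), recip_one (by omega) (by omega)] at hne
  have hk8 : k % 8 = 2 ∨ k % 8 = 6 := by omega
  rcases hk8 with hk8 | hk8
  · rw [ZMod.χ₄_nat_one_mod_four (by omega), one_mul] at hne
    rwa [two_one (by omega), one_mul]
  · rw [ZMod.χ₄_nat_three_mod_four (by omega)] at hne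
    rwa [two_neg (by omega)]

theorem second_add (hk : k % 4 = 2) (hp : 2 ≤ p) (hq : 2 ≤ q) (h : m ^ p = n ^ q + k)
    (hqe : q % 2 = 0) : J((m : ℤ) + 1 | (k + 1)) ≠ -1 := by
  obtain ⟨hpo, hm8⟩ := second_mod hk hp hq h hqe
  have key : ∀ u : ℕ, u % 2 = 1 → (u : ℤ) ∣ (m : ℤ) + 1 → J((u : ℤ) | (k + 1)) ≠ -1 := by
    intro u hu hd
    have hdvd : (u : ℤ) ∣ ((n ^ (q / 2) : ℕ) : ℤ) ^ 2 - (-((k + 1 : ℕ) : ℤ)) := by
      have e : ((n ^ (q / 2) : ℕ) : ℤ) ^ 2 - (-((k + 1 : ℕ) : ℤ)) = (m : ℤ) ^ p + 1 ^ p := by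
        have t1 := pow_even_eq (m := n) hqe
        rw [t1] at h
        have t : (m : ℤ) ^ p = ((n ^ (q / 2) : ℕ) : ℤ) ^ 2 + k := by exact_mod_cast h
        rw [t]; push_cast; ring
      rw [e]
      exact dvd_trans hd (Odd.add_dvd_pow_add_pow (m : ℤ) 1 (Nat.odd_iff.2 hpo))
    have hne := ne_of_sq hdvd
    rwa [recip_three (by omega) hu] at hne
  have hk8 : k % 8 = 2 ∨ k % 8 = 6 := by omega
  rcases hk8 with hk8 | hk8
  · obtain ⟨u, hu⟩ : ∃ u, m + 1 = 4 * u := ⟨(m + 1) / 4, by omega⟩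
    have e' : (m : ℤ) + 1 = 4 * (u : ℤ) := by exact_mod_cast hu
    rw [e', four_mul' _ (by omega)]
    exact key u (by omega) ⟨4, by rw [e']; ring⟩
  · obtain ⟨j, u, e, hu⟩ := odd_part (m + 1) (by omega)
    have e' : (m : ℤ) + 1 = 2 ^ j * (u : ℤ) := by exact_mod_cast e
    rw [e', two_pow_mul _ (by omega)]
    exact key u hu ⟨2 ^ j, by rw [e']; ring⟩

theorem second_dvd (hp : 2 ≤ p) (h : m ^ p = n ^ q + k) (hqe : q % 2 = 0) :
    J(-(k : ℤ) | m) ≠ -1 := by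
  apply ne_of_sq (x := ((n ^ (q / 2) : ℕ) : ℤ))
  have t1 := pow_even_eq (m := n) hqe
  rw [t1] at h
  have t : (m : ℤ) ^ p = ((n ^ (q / 2) : ℕ) : ℤ) ^ 2 + k := by exact_mod_cast h
  have : ((n ^ (q / 2) : ℕ) : ℤ) ^ 2 - -(k : ℤ) = (m : ℤ) ^ p := by rw [t]; ring
  rw [this]
  exact dvd_pow_self _ (by omega)

end Pool.Agent.H96.PP
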