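import Pool.Agent.H96.PP.Odd

/-!
# The classes that remain for `k = 6`
-/

namespace Pool.Agent.H96.PP

open scoped NumberTheorySymbols

theorem cls (a : ℤ) (b : ℕ) (r : ℤ) (hr : a % b = r) (hJ : J(r | b) = -1)
    (h : J(a | b) ≠ -1) : False := by
  apply h
  rw [jacobiSym.mod_left, hr, hJ]

theorem six_first {m n p q : ℕ} (hp : 2 ≤ p) (hq : 2 ≤ q) (h : m ^ p = n ^ q + 6)
    (hpe : p % 2 = 0) :
    n % 8 = 3 ∧ n % 3 = 1 ∧ n % 5 ∈ ({0, 3, 4} : Finset ℕ) ∧
      n % 7 ∈ ({1, 2, 3, 5} : Finset ℕ) := by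
  have h8 := first_mod (k := 6) (by norm_num) hp hq h hpe
  have h7 : J((n : ℤ) - 1 | 7) ≠ -1 := first_sub (k := 6) (by norm_num) hp hq h hpe
  have h5 : J((n : ℤ) + 1 | 5) ≠ -1 := first_add (k := 6) (by norm_num) hp hq h hpe
  have h3 : J((n : ℤ) | 3) ≠ -1 :=
    first_dvd (k := 6) (by norm_num) hp hq h hpe (r := 3) (by norm_num)
  have a7 : n % 7 ≠ 0 := fun hc => cls _ 7 6 (by push_cast; omega) (by norm_num) h7
  have b7 : n % 7 ≠ 4 := fun hc => cls _ 7 3 (by push_cast; omega) (by norm_num) h7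
  have c7 : n % 7 ≠ 6 := fun hc => cls _ 7 5 (by push_cast; omega) (by norm_num) h7
  have a5 : n % 5 ≠ 1 := fun hc => cls _ 5 2 (by push_cast; omega) (by norm_num) h5
  have b5 : n % 5 ≠ 2 := fun hc => cls _ 5 3 (by push_cast; omega) (by norm_num) h5
  have a3 : n % 3 ≠ 2 := fun hc => cls _ 3 2 (by push_cast; omega) (by norm_num) h3
  have b3 := (exact_div (r := 3) hp hq h (by norm_num) (by norm_num) (by norm_num)).2
  simp only [Finset.mem_insert, Finset.mem_singleton]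
  omega

theorem six_second {m n p q : ℕ} (hp : 2 ≤ p) (hq : 2 ≤ q) (h : m ^ p = n ^ q + 6)
    (hqe : q % 2 = 0) :
    m % 8 = 7 ∧ m % 3 = 1 ∧ m % 5 ∈ ({0, 1, 2} : Finset ℕ) ∧ m % 7 ∈ ({0, 1, 3, 6} : Finset ℕ) := by
  have h8 := (second_mod (k := 6) (by norm_num) hp hq h hqe).2
  have h5 : J((m : ℤ) - 1 | 5) ≠ -1 := second_sub (k := 6) (by norm_num) hp hq h hqe
  have h7 : J((m : ℤ) + 1 | 7) ≠ -1 := second_add (k := 6) (by norm_num) hp hq h hqe
  have a7 : m % 7 ≠ 2 := fun hc => cls _ 7 3 (by push_cast; omega) (by norm_num) h7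
  have b7 : m % 7 ≠ 4 := fun hc => cls _ 7 5 (by push_cast; omega) (by norm_num) h7
  have c7 : m % 7 ≠ 5 := fun hc => cls _ 7 6 (by push_cast; omega) (by norm_num) h7
  have h3 : J((m : ℤ) | 3) ≠ -1 :=
    second_div (k := 6) (by norm_num) hp hq h hqe (r := 3) (by norm_num)
  have a3 : m % 3 ≠ 2 := fun hc => cls _ 3 2 (by push_cast; omega) (by norm_num) h3
  have b3 := (exact_div (r := 3) hp hq h (by norm_num) (by norm_num) (by norm_num)).1
  have a5 : m % 5 ≠ 3 := fun hc => cls _ 5 2 (by push_cast; omega) (by norm_num) h5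
  have b5 : m % 5 ≠ 4 := fun hc => cls _ 5 3 (by push_cast; omega) (by norm_num) h5
  simp only [Finset.mem_insert, Finset.mem_singleton]
  omega

end Pool.Agent.H96.PP
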